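import Mathlib
import Pool.Agent.Helper15.GT.Ring
import Pool.Agent.Helper21.TB.Fib

/-!
# IV: the class of products of curves, symmetric squares, elliptic K3 surfaces, and what they decompose into
-/

set_option linter.unusedSectionVars false

namespace Pool.Agent.Helper28.IV

open VC VF Pool.Agent.Helper21.TO Pool.Agent.Helper15.GT
open Pool.Agent.Helper21.TB (Fibration)

universe u

/-- The smallest class of pairs of a field `F` over `k` and a natural number `p` with the following
properties.
* (`prod`) If `F` is the function field of the product of the curves with function fields `A`, `B`, of genus `g`, `h` (it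
  contains the ring `A ⊗ B`, i.e. the map `A ⊗ B → F` is injective, and is generated by `A` and `B`) then `(F, g h)` is in the class.
* (`sym`) Let `N` be the function field of the square of the curve with function field `A`, of genus `g`, and let `F` be the
  fixed field of the exchange `τ` of the factors. Then `(F, g (g - 1) / 2)` is in the class.
* (`fib`) Let `F` be the function field of a surface with a fibration over the curve with function field `K`, of
  genus zero, whose generic fibre is a curve of genus one, given by the data `T`: `F` contains `K` and is the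
  fixed field of the Galois group `T.G` in `T.Ω`. Let the minimal divisor `E` on the base with `4 E + div a ≥ 0` and
  `6 E + div b ≥ 0` for the coefficients of the equation `y ^ 2 = x ^ 3 + a x + b` of the Jacobian be of degree two (for
  example if the surface is K3). Then `(F, 1)` is in the class.
* (`dec`) Let the finite group `G` act on `N`, let `H` and `Γ_i` be subgroups with the sums of elements `e_H`, `e_{Γ_i}`, and let
  `e_H = ∑ Y_i e_{Γ_i} X_i` with `X_i`, `Y_i` in the rational group ring of `G`. (Such elements exist if and only if the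
  permutation representation `ℚ[G/H]` is a direct factor of the sum of the `ℚ[G/Γ_i]`.) If `F` is the fixed field of `H`
  (embedding `φ`), the `E_i` are the fixed fields of the `Γ_i` (embeddings `ψ_i`), and the pairs `(E_i, p_i)` are in the class, then
  `(F, ∑ p_i)` is in the class. -/
inductive Cls (k : Type u) [Field k] [IsAlgClosed k] [CharZero k] :
    (F : Type u) → [Field F] → [Algebra k F] → ℕ → Prop
  | prod (F A B : Type u) [Field F] [Algebra k F] [Field A] [Algebra k A] [Field B] [Algebra k B]
      (hA : IsFunctionField k A) (hB : IsFunctionField k B) (g h : ℕ) (hg : IsGenus k A g) (hh : IsGenus k B h)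
      (κ : A →ₐ[k] F) (μ : B →ₐ[k] F) (inj : Function.Injective (Algebra.TensorProduct.productMap κ μ))
      (gen : IntermediateField.adjoin k (Set.range κ ∪ Set.range μ) = ⊤) : Cls k F (g * h)
  | sym (F N A : Type u) [Field F] [Algebra k F] [Field N] [Algebra k N] [Field A] [Algebra k A]
      (hA : IsFunctionField k A) (g : ℕ) (hg : IsGenus k A g)
      (κ μ : A →ₐ[k] N) (inj : Function.Injective (Algebra.TensorProduct.productMap κ μ))
      (gen : IntermediateField.adjoin k (Set.range κ ∪ Set.range μ) = ⊤) (τ : N ≃ₐ[k] N) (hτ : ∀ z, τ (κ z) = μ z ∧ τ (μ z) = κ z)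
      (φ : F →ₐ[k] N) (hφ : ∀ z : N, z ∈ Set.range φ ↔ τ z = z) : Cls k F (g.choose 2)
  | fib (F K L Ω : Type u) [Field F] [Algebra k F] [Field K] [Algebra k K] [Field L] [Algebra k L]
      [Algebra K L] [IsScalarTower k K L] [Field Ω] [Algebra k Ω] [Algebra L Ω] [IsScalarTower k L Ω]
      (T : Fibration k K L Ω) (hg : IsGenus k K 0) (E : Place k K →₀ ℤ)
      (h4 : ∀ P : Place k K, T.a ≠ 0 → 0 ≤ ord P.ring T.a + 4 * E P)
      (h6 : ∀ P : Place k K, T.b ≠ 0 → 0 ≤ ord P.ring T.b + 6 * E P)
      (hmin : ∀ P : Place k K, (T.a ≠ 0 ∧ ord P.ring T.a + 4 * E P < 4) ∨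
        (T.b ≠ 0 ∧ ord P.ring T.b + 6 * E P < 6))
      (hE : (E.sum fun _ m => m) = 2) (κ : K →ₐ[k] F) (f : F →ₐ[k] Ω) (hκ : f.comp κ = T.j)
      (hf : ∀ z : Ω, z ∈ Set.range f ↔ ∀ σ ∈ T.G, σ z = z) : Cls k F 1
  | dec (F N : Type u) [Field F] [Algebra k F] [Field N] [Algebra k N] (G : Type u) [Group G] [Finite G]
      (ρ : G →* (N ≃ₐ[k] N)) (H : Subgroup G) (φ : F →ₐ[k] N)
      (hφ : ∀ z : N, z ∈ Set.range φ ↔ ∀ g ∈ H, ρ g z = z) (m : ℕ) (Γ : Fin m → Subgroup G)
      (X Y : Fin m → MonoidAlgebra ℚ G) (hΓ : eG H = ∑ i, Y i * eG (Γ i) * X i) (E : Fin m → Type u) [∀ i, Field (E i)]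
      [∀ i, Algebra k (E i)] (ψ : ∀ i, E i →ₐ[k] N)
      (hψ : ∀ i z, z ∈ Set.range (ψ i) ↔ ∀ g ∈ Γ i, ρ g z = z) (p : Fin m → ℕ)
      (h : ∀ i, Cls k (E i) (p i)) : Cls k F (∑ i, p i)

end Pool.Agent.Helper28.IV
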