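import Mathlib
import Pool.Agent.Helper9.NS
import Pool.Agent.Helper15.KP.Defs
import Pool.Agent.Helper21.TO.Trans

/-!
# IV: functionals on the closure of a point with coordinates in the function field of a product of two curves

They depend only on the restrictions of places to the two curves, and give functionals on the powers of the product
of the curves.
-/

set_option linter.unusedSectionVars false

namespace Pool.Agent.Helper28.IV

open VC VF Function Pool.Agent.Helper21.TO Pool.Agent.Helper15.GT Pool.Agent.Helper15.KP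

universe u

variable {k F₁ F₂ F : Type u} [Field k] [IsAlgClosed k] [CharZero k] [Field F₁] [Algebra k F₁] [Field F₂] [Algebra k F₂]
  [Field F] [Algebra k F] (h₁ : IsFunctionField k F₁) (h₂ : IsFunctionField k F₂)
  (κ₁ : F₁ →ₐ[k] F) (κ₂ : F₂ →ₐ[k] F)

/-- Change of the places in all coordinates. -/
theorem dep_all (hdep : ∀ u : RPl k F → k, HF k F u → ∀ w w' : RPl k F, w.pl h₁ κ₁ = w'.pl h₁ κ₁ →
      w.pl h₂ κ₂ = w'.pl h₂ κ₂ → u w = u w')
    {M : ℕ} (ξ : Fin M → F) (hξ : ξ ≠ 0) {n : ℕ} {Φ : ((proj k (van k ξ)).pow n).Pt → k}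
    (hΦ : Kills ((proj k (van k ξ)).pow n) Φ) (w w' : Fin n → RPl k F)
    (e₁ : ∀ i, (w i).pl h₁ κ₁ = (w' i).pl h₁ κ₁) (e₂ : ∀ i, (w i).pl h₂ κ₂ = (w' i).pl h₂ κ₂) :
    Φ (fun i => evP ξ hξ (w i)) = Φ (fun i => evP ξ hξ (w' i)) := by
  classical
  have key : ∀ s : Finset (Fin n), Φ (fun i => evP ξ hξ (s.piecewise w' w i)) = Φ (fun i => evP ξ hξ (w i)) := by
    intro s
    induction s using Finset.induction_on with
    | empty => rw [Finset.piecewise_empty]
    | insert i s hi ih =>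
      rw [← ih, Finset.piecewise_insert]
      set v := s.piecewise w' w with hv
      have hvi : v i = w i := Finset.piecewise_eq_of_notMem _ _ _ hi
      have hu : HF k F (fun x => Φ (update (fun j => evP ξ hξ (v j)) i (evP ξ hξ x))) :=
        ⟨M, ξ, hξ, fun p => Φ (update (fun j => evP ξ hξ (v j)) i p),
          hΦ.comp (induced_update (proj k (van k ξ)) (fun j => evP ξ hξ (v j)) (fun K _ _ hK p => pconst K hK p) i),
          fun _ => rfl⟩
      have h1 := hdep _ hu (w' i) (w i) (e₁ i).symm (e₂ i).symm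
      beta_reduce at h1
      have h2 : (fun j => evP ξ hξ (update v i (w' i) j)) = update (fun j => evP ξ hξ (v j)) i (evP ξ hξ (w' i)) := by
        funext j
        by_cases hj : j = i
        · subst hj
          rw [update_self, update_self]
        · rw [update_of_ne hj, update_of_ne hj]
      have h3 : update (fun j => evP ξ hξ (v j)) i (evP ξ hξ (w i)) = fun j => evP ξ hξ (v j) := by
        rw [← hvi]
        exact update_eq_self i (fun j => evP ξ hξ (v j))
      rw [h2, h1, h3]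
  have h1 := key Finset.univ
  rw [Finset.piecewise_univ] at h1
  exact h1.symm

/-- The functional on the powers of the product of the two curves. -/
theorem fact (hdep : ∀ u : RPl k F → k, HF k F u → ∀ w w' : RPl k F, w.pl h₁ κ₁ = w'.pl h₁ κ₁ →
      w.pl h₂ κ₂ = w'.pl h₂ κ₂ → u w = u w')
    (hsur : ∀ (x : Place k F₁) (y : Place k F₂), ∃ w : RPl k F, w.pl h₁ κ₁ = x ∧ w.pl h₂ κ₂ = y)
    {M : ℕ} (ξ : Fin M → F) (hξ : ξ ≠ 0)
    (hlift : ∀ (K : Type u) [Field K] [Algebra k K] (hK : IsFunctionField k K) (n : ℕ)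
      (c : Fin n → ((curve h₁).prod (curve h₂)).Mor K),
      ∃ (K' : Type u) (_ : Field K') (_ : Algebra k K') (_ : Algebra K K') (_ : IsScalarTower k K K')
        (hK' : IsFunctionField k K') (P : Fin n → (proj k (van k ξ)).Mor K'), ∀ (v : Place k K') (i : Fin n),
        ∃ w : RPl k F, w.pl h₁ κ₁ = (curve h₁).eval hK (c i).1 (VQ.res hK hK' v) ∧
          w.pl h₂ κ₂ = (curve h₂).eval hK (c i).2 (VQ.res hK hK' v) ∧
          (proj k (van k ξ)).eval hK' (P i) v = evP ξ hξ w)
    {n : ℕ} {Φ : ((proj k (van k ξ)).pow n).Pt → k} (hΦ : Kills ((proj k (van k ξ)).pow n) Φ) :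
    ∃ Ψ : (((curve h₁).prod (curve h₂)).pow n).Pt → k, Kills (((curve h₁).prod (curve h₂)).pow n) Ψ ∧
      ∀ w : Fin n → RPl k F, Φ (fun i => evP ξ hξ (w i)) = Ψ (fun i => ((w i).pl h₁ κ₁, (w i).pl h₂ κ₂)) := by
  classical
  choose W hW₁ hW₂ using hsur
  let Ψ : (((curve h₁).prod (curve h₂)).pow n).Pt → k := fun p => Φ (fun i => evP ξ hξ (W (p i).1 (p i).2))
  have hΨ : ∀ w : Fin n → RPl k F,
      Φ (fun i => evP ξ hξ (w i)) = Ψ (fun i => ((w i).pl h₁ κ₁, (w i).pl h₂ κ₂)) := fun w =>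
    dep_all h₁ h₂ κ₁ κ₂ hdep ξ hξ hΦ w _ (fun i => (hW₁ _ _).symm) (fun i => (hW₂ _ _).symm)
  refine ⟨Ψ, kills_of_gen ?_, hΨ⟩
  intro K _ _ hK c f hf
  obtain ⟨K', iF', iA', iAK, iT, hK', P, hP⟩ := hlift K hK n c
  have hf' : algebraMap K K' f ≠ 0 := (_root_.map_ne_zero _).mpr hf
  refine Pool.Agent.Helper83.QF.kills_res hK hK' (fun v => Ψ ((((curve h₁).prod (curve h₂)).pow n).eval hK c v))
    hf hf' ?_
  rw [← hΦ.gen hK' P hf']
  refine Finset.sum_congr rfl fun v _ => ?_
  congr 1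
  choose w hw₁ hw₂ hw₃ using hP v
  have e1 : ((proj k (van k ξ)).pow n).eval hK' P v = fun i => evP ξ hξ (w i) := funext hw₃
  have e2 : (((curve h₁).prod (curve h₂)).pow n).eval hK c (VQ.res hK hK' v) =
      fun i => ((w i).pl h₁ κ₁, (w i).pl h₂ κ₂) := by
    funext i
    change ((curve h₁).eval hK (c i).1 (VQ.res hK hK' v), (curve h₂).eval hK (c i).2 (VQ.res hK hK' v)) = _
    rw [hw₁, hw₂]
  rw [e1]
  beta_reduce
  rw [e2, hΨ]

end Pool.Agent.Helper28.IV
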