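import Mathlib
import Pool.Agent.Helper9.NS
import Pool.Agent.Helper28.IV.Fact
import Pool.Agent.Helper26.IV.Lift
import Pool.Agent.Helper17.IV.Defs

/-!
# IV: the block FACT from the block (70)
-/

set_option linter.unusedSectionVars false

namespace Pool.Agent.Helper28.IV

open VC VF Function Pool.Agent.Helper21.TO Pool.Agent.Helper15.GT Pool.Agent.Helper15.KP
open scoped TensorProduct

universe u

/-- [70] A harmonic function on the function field of a product of two curves depends only on the restrictions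
to the two curves. -/
def StmtDep : Prop := ∀ (k F₁ F₂ F : Type u) [Field k] [IsAlgClosed k] [CharZero k] [Field F₁] [Algebra k F₁]
    [Field F₂] [Algebra k F₂] [Field F] [Algebra k F] (h₁ : IsFunctionField k F₁) (h₂ : IsFunctionField k F₂)
    (κ₁ : F₁ →ₐ[k] F) (κ₂ : F₂ →ₐ[k] F) (_ : Injective (Algebra.TensorProduct.productMap κ₁ κ₂))
    (_ : ∀ z : F, ∃ a b : F₁ ⊗[k] F₂, b ≠ 0 ∧
      z * Algebra.TensorProduct.productMap κ₁ κ₂ b = Algebra.TensorProduct.productMap κ₁ κ₂ a)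
    (u : RPl k F → k) (_ : HF k F u) (w w' : RPl k F) (_ : w.pl h₁ κ₁ = w'.pl h₁ κ₁)
    (_ : w.pl h₂ κ₂ = w'.pl h₂ κ₂), u w = u w'

theorem fact_of_dep (h : StmtDep.{u}) : Pool.Agent.Helper17.IV.StmtFact.{u} := by
  intro k F₁ F₂ F _ _ _ _ _ _ _ _ _ h₁ h₂ κ₁ κ₂ hinj hgen M ξ hξ n Φ hΦ
  refine fact h₁ h₂ κ₁ κ₂ (h k F₁ F₂ F h₁ h₂ κ₁ κ₂ hinj hgen)
    (Pool.Agent.Helper26.IV.sur h₁ h₂ κ₁ κ₂ hinj) ξ hξ (fun K _ _ hK n c => ?_) hΦ
  obtain ⟨K', iF, iA, iK, iT, -, hK', P, hP⟩ := Pool.Agent.Helper26.IV.liftc h₁ h₂ κ₁ κ₂ hinj ξ hξ hK c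
  exact ⟨K', iF, iA, iK, iT, hK', P, hP⟩

end Pool.Agent.Helper28.IV
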