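import Mathlib
import Pool.Agent.Helper9.NS
import Pool.Agent.Helper70.VP.Pencil
import Pool.Agent.Helper21.TO.Trans

/-!
# IV: small lemmas
-/

set_option linter.unusedSectionVars false

namespace Pool.Agent.Helper28.IV

open VC VF VP Function
open scoped TensorProduct

universe u

/-- A field generated by two subfields is the field of fractions of the image of their tensor product. -/
theorem quot_of_gen {k A B F : Type u} [Field k] [Field A] [Algebra k A] [Field B] [Algebra k B] [Field F] [Algebra k F]
    (κ : A →ₐ[k] F) (μ : B →ₐ[k] F) (gen : IntermediateField.adjoin k (Set.range κ ∪ Set.range μ) = ⊤) (z : F) :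
    ∃ a b : A ⊗[k] B, b ≠ 0 ∧ z * Algebra.TensorProduct.productMap κ μ b = Algebra.TensorProduct.productMap κ μ a := by
  have hr : (Algebra.TensorProduct.productMap κ μ).range = Algebra.adjoin k (Set.range κ ∪ Set.range μ) := by
    rw [Algebra.TensorProduct.productMap_range, Algebra.adjoin_union]
    congr 1
    · exact (Algebra.adjoin_eq κ.range).symm
    · exact (Algebra.adjoin_eq μ.range).symm
  have hz : z ∈ IntermediateField.adjoin k (Set.range κ ∪ Set.range μ) := by rw [gen]; trivial
  rw [IntermediateField.mem_adjoin_iff_div] at hz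
  obtain ⟨r, hr1, s, hs1, hz⟩ := hz
  rw [← hr] at hr1 hs1
  obtain ⟨a, ha⟩ := hr1
  obtain ⟨b, hb⟩ := hs1
  have ha' : Algebra.TensorProduct.productMap κ μ a = r := ha
  have hb' : Algebra.TensorProduct.productMap κ μ b = s := hb
  by_cases hs : s = 0
  · refine ⟨0, 1, fun h => ?_, ?_⟩
    · have h1 := congrArg (Algebra.TensorProduct.productMap κ μ) h
      rw [map_one, map_zero] at h1
      exact one_ne_zero h1
    · rw [hz, hs, div_zero, zero_mul, map_zero]
  · refine ⟨a, b, fun h => hs ?_, ?_⟩
    · rw [← hb', h, map_zero]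
    · rw [ha', hb', hz, div_mul_cancel₀ _ hs]

/-- A divisor of positive degree is not principal. -/
theorem not_principal {k K : Type u} [Field k] [IsAlgClosed k] [CharZero k] [Field K] [Algebra k K]
    (hK : IsFunctionField k K) (E : Place k K →₀ ℤ) (hE : (E.sum fun _ m => m) = 2) :
    ¬ ∃ u : K, u ≠ 0 ∧ ∀ P : Place k K, ord P.ring u = E P := by
  rintro ⟨u, hu, h⟩
  have h1 := degree_zero hK hu
  have h2 : (finite_support_ord hK hu).toFinset = E.support := by
    ext P
    rw [Set.Finite.mem_toFinset, Set.mem_ofPred_eq, h, Finsupp.mem_support_iff]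
  rw [h2, Finset.sum_congr rfl fun P _ => h P] at h1
  have h3 : (E.sum fun _ m => m) = ∑ P ∈ E.support, E P := rfl
  rw [h3, h1] at hE
  norm_num at hE

end Pool.Agent.Helper28.IV
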