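import Mathlib
import Pool.Agent.Helper9.NS
import Pool.Agent.Helper15.JE.Main
import Pool.Agent.Helper28.IV.Cls
import Pool.Agent.Helper28.IV.Gen
import Pool.Agent.Helper17.IV.Sym

/-!
# IV: Voisin's property for the class of function fields
-/

set_option linter.unusedSectionVars false

namespace Pool.Agent.Helper28.IV

open VC VF Function Pool.Agent.Helper21.TO Pool.Agent.Helper15.GT Pool.Agent.Helper15.JC
open Pool.Agent.Helper15.JD (VPA vpa_of_vpj famA IsCor)

universe u

theorem Cls.vpaH (hF : Pool.Agent.Helper17.IV.StmtFact.{u})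
    (hprod : ∀ (k F A B : Type u) [Field k] [IsAlgClosed k] [CharZero k] [Field F] [Algebra k F] [Field A] [Algebra k A]
      [Field B] [Algebra k B] (_ : IsFunctionField k A) (_ : IsFunctionField k B) (κ : A →ₐ[k] F) (μ : B →ₐ[k] F)
      (_ : Injective (Algebra.TensorProduct.productMap κ μ))
      (_ : ∀ z : F, ∃ a b, b ≠ 0 ∧ z * Algebra.TensorProduct.productMap κ μ b = Algebra.TensorProduct.productMap κ μ a)
      (g h : ℕ) (_ : IsGenus k A g) (_ : IsGenus k B h), VPA k F (g * h))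
    {k F : Type u} [Field k] [IsAlgClosed k] [CharZero k] [Field F] [Algebra k F]
    {p : ℕ} (h : Cls k F p) : VPA k F p := by
  induction h with
  | prod F A B hA hB g h hg hh κ μ inj gen => exact hprod k F A B hA hB κ μ inj (quot_of_gen κ μ gen) g h hg hh
  | sym F N A hA g hg κ μ inj gen τ hτ φ hφ =>
    exact Pool.Agent.Helper17.IV.symr hF hA κ μ inj (quot_of_gen κ μ gen) τ (fun z => (hτ z).1) (fun z => (hτ z).2) φ
      (fun z => (hφ _).mp ⟨z, rfl⟩) (fun z => (hφ z).mpr) g hg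
  | fib F K L Ω T hg E h4 h6 hmin hE κ f hκ hf =>
    have hf1 : ∀ σ ∈ T.G, ∀ z, σ (f z) = f z := fun σ hσ z => (hf (f z)).mp ⟨z, rfl⟩ σ hσ
    exact vpa_of_vpj (vpj_fib T hg E h4 h6 hmin (not_principal T.hF E hE) κ f hκ hf1 (by rw [hE]; rfl))
  | dec F N G ρ H φ hφ m Γ X Y hΓ E ψ hψ p h ih =>
    exact Pool.Agent.Helper15.JE.vpa_dec famA ρ H φ hφ Γ X Y hΓ E ψ hψ p ih

end Pool.Agent.Helper28.IV
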