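import Mathlib
import Pool.Agent.Helper9.NS
import Pool.Agent.Helper28.IV.Vpa
import Pool.Agent.Helper28.IV.FactF
import Pool.Agent.Helper98.IV.Prod
import Pool.Agent.Helper70.IR2.Dep
import Pool.Agent.Helper79.JD.Apply
import Pool.Agent.Helper15.JD.Cor

/-!
# IV: the theorem for the class of function fields
-/

set_option linter.unusedSectionVars false

namespace Pool.Agent.Helper28.IV

open VC VF Function Pool.Agent.Helper21.TO Pool.Agent.Helper15.GT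
open Pool.Agent.Helper15.JD (VPA IsCor)

universe u

theorem dep : StmtDep.{u} := fun _ _ _ _ _ _ _ _ _ _ _ _ _ h₁ h₂ κ₁ κ₂ hinj hgen _ hu w w' e₁ e₂ =>
  Pool.Agent.Helper70.IR2.dep h₁ h₂ κ₁ κ₂ hinj hgen hu w w' e₁ e₂

theorem Cls.vpa {k F : Type u} [Field k] [IsAlgClosed k] [CharZero k] [Field F] [Algebra k F]
    {p : ℕ} (h : Cls k F p) : VPA k F p :=
  h.vpaH (fact_of_dep dep) fun _ _ _ _ _ _ _ _ _ _ _ _ _ h₁ h₂ κ₁ κ₂ hinj hgen _ _ hg₁ hg₂ =>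
    Pool.Agent.Helper98.IV.prodr (fact_of_dep dep) h₁ h₂ κ₁ κ₂ hinj hgen hg₁ hg₂

theorem main {k F : Type u} [Field k] [IsAlgClosed k] [CharZero k] [Field F] [Algebra k F]
    {p : ℕ} (h : Cls k F p) {M : ℕ} (ξ : Fin M → F) (hξ : ξ ≠ 0) {n : ℕ} (hn : p < n)
    (a : Fin n → (proj k (van k ξ)).Cycles) (ha0 : ∀ l, (a l).sum (fun _ c => c) = 0)
    (haJ : ∀ (N : Type u) [Field N] [Algebra k N] (i : F →ₐ[k] N) (_ : (i : F →+* N).Finite) (K : Type u) [Field K]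
      [Algebra k K] (hK : IsFunctionField k K) (j : K →ₐ[k] N), ¬ IsGenus k K 0 →
        ∃ θ : PPt k k (van k ξ) → Place k K →₀ ℤ, IsCor hK i j ξ hξ θ ∧
          ∀ l, Finsupp.linearCombination ℤ θ (a l) ∈ (curve hK).Rat) :
    ∃ m : ℕ, 0 < m ∧ m • ∑ σ : Equiv.Perm (Fin n), ((Equiv.Perm.sign σ : ℤˣ) : ℤ) •
      extProd (fun i => a (σ i)) ∈ ((proj k (van k ξ)).pow n).Rat :=
  Pool.Agent.Helper79.JD.apply k F p h.vpa M ξ hξ n hn a ha0 haJ

end Pool.Agent.Helper28.IV
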